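import Pool.Agent.Helper36.TS.FarF

/-!
# The row lemma

The volume of a cell is a sum of one-variable functions of its row plus a price for `d`.
-/

set_option autoImplicit false

namespace Pool.Agent.Helper23.TS

open Pool.Agent.Helper84.TS Pool.Agent.Helper36.TS

/-- the column function `g_c(u) = c u - u²/2 + (u⁻)³/3` -/
noncomputable def gg (c u : ℝ) : ℝ := c * u - u ^ 2 / 2 + (max (-u) 0) ^ 3 / 3

/-- the column function with the term of a big entry -/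
noncomputable def gx (c u : ℝ) : ℝ := gg c u + (max (u - 1) 0) ^ 2

/-- the slope of the volume in `d` -/
noncomputable def slope (d a b c : ℝ) : ℝ :=
  3 / 2 - d / 2 + d ^ 2 / 6 - (a ^ 2 + b ^ 2 + c ^ 2) / 2
    + ((max (a - 1) 0) ^ 2 + (max (b - 1) 0) ^ 2 + (max (c - 1) 0) ^ 2)

/-- the cubic term -/
noncomputable def cub (a b c : ℝ) : ℝ :=
  ((max (-a) 0) ^ 3 + (max (-b) 0) ^ 3 + (max (-c) 0) ^ 3) / 3

theorem gx_of_le {c u : ℝ} (h : u ≤ 1) : gx c u = gg c u := by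
  rw [gx, max_eq_right (by linarith)]
  ring

theorem gg_nonneg {c u : ℝ} (h : 0 ≤ u) : gg c u = c * u - u ^ 2 / 2 := by
  rw [gg, max_eq_right (by linarith)]
  ring

theorem gg_nonpos {c u : ℝ} (h : u ≤ 0) : gg c u = c * u - u ^ 2 / 2 - u ^ 3 / 3 := by
  rw [gg, max_eq_left (by linarith)]
  ring

theorem gg_add (c c' u : ℝ) : gg (c + c') u = gg c u + c' * u := by
  rw [gg, gg]
  ring

theorem gg_sub (c c' u : ℝ) : gg (c - c') u = gg c u - c' * u := by
  rw [gg, gg]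
  ring

/-- the volume for `a + b + c = 1 + d` -/
theorem ff_row (ν : ℝ) {d a b c : ℝ} (h : a + b + c = 1 + d) :
    ff d a b c = 7 / 6 - ν + gx ν a + gx ν b + gx ν c - (ν + slope d a b c) * d := by
  have e : d = a + b + c - 1 := by linarith
  subst e
  simp only [ff, gx, gg, slope]
  ring

theorem slope_mul (d a b c : ℝ) :
    (1 - d) * slope d a b c = 1 / 3 + ff d a b c - cub a b c - d / 2 + d ^ 2 / 6 := by
  simp only [ff, slope, cub]
  ring

theorem slope_ge {d a b c φ C θ : ℝ} (h0 : 0 ≤ d) (h1 : d < 1) (hφ : φ ≤ ff d a b c)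
    (hC : cub a b c ≤ C) (hθ : θ ≤ 1 / 3 + φ - C) (hθ' : 1 / 2 ≤ 1 / 3 + φ - C) :
    θ ≤ slope d a b c := by
  have h := slope_mul d a b c
  by_contra hcon
  push Not at hcon
  nlinarith [mul_nonneg h0 (sub_nonneg.2 hθ'), mul_pos (sub_pos.2 h1) (sub_pos.2 hcon)]

/-- the sum of the row -/
theorem row_sum {i j k l : Fin 4} {v : Fin 4 → ℝ} (hv : IsCell i v) (h : [i, j, k, l].Nodup) :
    -v j + -v k + -v l = 1 + (v i - 1) := by
  have := (cell_lin hv h).1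
  linarith

/-- **The exact row formula.** -/
theorem row_eq {i j k l : Fin 4} {v : Fin 4 → ℝ} (ν : ℝ) (hv : IsCell i v)
    (h : [i, j, k, l].Nodup) :
    fcl i v = 7 / 6 - ν + gx ν (-v j) + gx ν (-v k) + gx ν (-v l)
      - (ν + slope (v i - 1) (-v j) (-v k) (-v l)) * (v i - 1) := by
  rw [fcl_eq h v]
  exact ff_row ν (row_sum hv h)

/-- the exact slope -/
theorem slope_cell {i j k l : Fin 4} {v : Fin 4 → ℝ} (h : [i, j, k, l].Nodup) :
    (2 - v i) * slope (v i - 1) (-v j) (-v k) (-v l) =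
      1 / 3 + fcl i v - cub (-v j) (-v k) (-v l) - (v i - 1) / 2 + (v i - 1) ^ 2 / 6 := by
  rw [fcl_eq h v, ← slope_mul]
  ring

/-- **The row lemma** for any cell (main or far). -/
theorem row_le {i j k l : Fin 4} {v : Fin 4 → ℝ} {φ C θ : ℝ} (ν : ℝ) (hv : IsCell i v)
    (h : [i, j, k, l].Nodup) (hφ : φ ≤ fcl i v) (hC : cub (-v j) (-v k) (-v l) ≤ C)
    (hθ : θ ≤ 1 / 3 + φ - C) (hθ' : 1 / 2 ≤ 1 / 3 + φ - C) :
    fcl i v ≤ 7 / 6 - ν + gx ν (-v j) + gx ν (-v k) + gx ν (-v l) - (ν + θ) * (v i - 1) := by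
  have a := cell_lin hv h
  have hd0 : 0 ≤ v i - 1 := by linarith
  rw [row_eq ν hv h]
  rw [fcl_eq h v] at hφ
  have hd1 : v i - 1 < 1 := by linarith
  have := slope_ge hd0 hd1 hφ hC hθ hθ'
  nlinarith [mul_nonneg hd0 (sub_nonneg.2 this)]

/-! ### Main cells -/

/-- a main cell has at most one negative entry -/
theorem main_pos {i j k l : Fin 4} {v : Fin 4 → ℝ} (hv : IsCell i v) (h : [i, j, k, l].Nodup)
    (hm : ∀ m, m ≠ i → -v m ≤ 1) (hj : 0 < v j) : v k < 0 ∧ v l < 0 := by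
  have a := cell_lin hv h
  have b := nodup_ne h
  have hk := hm k b.2.1
  have hl := hm l b.2.2
  exact ⟨by linarith, by linarith⟩

/-- a main cell with the negative entry `-r` has `r ≤ 1 - d` -/
theorem main_le {i j k l : Fin 4} {v : Fin 4 → ℝ} (hv : IsCell i v) (h : [i, j, k, l].Nodup)
    (hm : ∀ m, m ≠ i → -v m ≤ 1) : v j + (v i - 1) ≤ 1 := by
  have a := cell_lin hv h
  have b := nodup_ne h
  have hk := hm k b.2.1
  have hl := hm l b.2.2
  linarith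

/-- **the volume of a main cell with a negative entry** -/
theorem main_neg_le {i j k l : Fin 4} {v : Fin 4 → ℝ} (hv : IsCell i v) (h : [i, j, k, l].Nodup)
    (hm : ∀ m, m ≠ i → -v m ≤ 1) (hj : 0 ≤ v j) :
    fcl i v ≤ 11 / 12 - v j / 2 - 3 / 4 * (v j) ^ 2 + (v j) ^ 3 / 3 := by
  have a := cell_lin hv h
  have b := nodup_ne h
  have hk := hm k b.2.1
  have hl := hm l b.2.2
  have hr := main_le hv h hm
  have hk0 : 0 ≤ -v k := by linarith
  have hl0 : 0 ≤ -v l := by linarith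
  rw [fcl_eq h v, ff, neg_neg, neg_neg, neg_neg, max_eq_left hj,
    max_eq_right (by linarith : v k ≤ 0), max_eq_right (by linarith : v l ≤ 0),
    max_eq_right (by linarith : -v j - 1 ≤ 0), max_eq_right (by linarith : -v k - 1 ≤ 0),
    max_eq_right (by linarith : -v l - 1 ≤ 0)]
  obtain ⟨d, hd⟩ : ∃ d, d = v i - 1 := ⟨_, rfl⟩
  obtain ⟨r, hrr⟩ : ∃ r, r = v j := ⟨_, rfl⟩
  have e : v l = -(1 + d + r + v k) := by rw [hd, hrr]; linarith
  have hd0 : 0 ≤ d := by rw [hd]; linarith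
  rw [← hd, e, ← hrr]
  have hr0 : 0 ≤ r := by rw [hrr]; exact hj
  have hdr : r + d ≤ 1 := by rw [hd, hrr]; exact hr
  have sq : 0 ≤ (1 - d) * (v k + (1 + d + r) / 2) ^ 2 :=
    mul_nonneg (by linarith) (sq_nonneg _)
  have key : d * (-7 / 4 + 3 / 4 * d + d ^ 2 / 12 + d * r / 2 + 3 / 4 * r ^ 2) ≤ 0 := by
    refine mul_nonpos_of_nonneg_of_nonpos hd0 ?_
    nlinarith [mul_nonneg hr0 hd0, mul_nonneg hr0 (sub_nonneg.2 hdr),
      mul_nonneg hd0 (sub_nonneg.2 hdr)]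
  nlinarith

/-- the negative entry of a main cell of volume at least `φ` -/
theorem main_r {i j k l : Fin 4} {v : Fin 4 → ℝ} {φ r : ℝ} (hv : IsCell i v)
    (h : [i, j, k, l].Nodup) (hm : ∀ m, m ≠ i → -v m ≤ 1) (hφ : φ ≤ fcl i v) (hr0 : 0 ≤ r)
    (hr : 11 / 12 - r / 2 - 3 / 4 * r ^ 2 + r ^ 3 / 3 ≤ φ) : v j ≤ r := by
  by_contra hcon
  push Not at hcon
  have h1 := main_neg_le hv h hm (by linarith)
  have h2 := main_le hv h hm
  have h3 := (cell_lin hv h).2.1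
  have h4 : v j ≤ 1 := by linarith
  obtain ⟨s, hs⟩ : ∃ s, s = v j := ⟨_, rfl⟩
  rw [← hs] at h1 hcon h4
  have h5 : 0 < (s - r) * (1 / 2 + 3 / 4 * (s + r) - (s ^ 2 + s * r + r ^ 2) / 3) := by
    refine mul_pos (by linarith) ?_
    nlinarith [mul_nonneg hr0 (by linarith : (0 : ℝ) ≤ 1 - s),
      mul_nonneg hr0 (by linarith : (0 : ℝ) ≤ 1 - r),
      mul_nonneg (by linarith : (0 : ℝ) ≤ s) (by linarith : (0 : ℝ) ≤ 1 - s)]
  nlinarith

theorem cub_main {i j k l : Fin 4} {v : Fin 4 → ℝ} {r : ℝ} (hv : IsCell i v)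
    (h : [i, j, k, l].Nodup) (hm : ∀ m, m ≠ i → -v m ≤ 1) (hr0 : 0 ≤ r) (hj : v j ≤ r)
    (hk : v k ≤ r) (hl : v l ≤ r) : cub (-v j) (-v k) (-v l) ≤ r ^ 3 / 3 := by
  have a := cell_lin hv h
  have b := nodup_ne h
  have hj1 := hm j b.1
  have hk1 := hm k b.2.1
  have hl1 := hm l b.2.2
  have p : ∀ s : ℝ, s ≤ r → 0 ≤ s → s ^ 3 ≤ r ^ 3 := fun s hs h0 => pow_le_pow_left₀ h0 hs 3
  have r3 : 0 ≤ r ^ 3 := by positivity
  rw [cub, neg_neg, neg_neg, neg_neg]
  rcases le_total 0 (v j) with hj0 | hj0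
  · rw [max_eq_left hj0, max_eq_right (by linarith : v k ≤ 0),
      max_eq_right (by linarith : v l ≤ 0)]
    linarith [p _ hj hj0]
  · rcases le_total 0 (v k) with hk0 | hk0
    · rw [max_eq_right hj0, max_eq_left hk0, max_eq_right (by linarith : v l ≤ 0)]
      linarith [p _ hk hk0]
    · rcases le_total 0 (v l) with hl0 | hl0
      · rw [max_eq_right hj0, max_eq_right hk0, max_eq_left hl0]
        linarith [p _ hl hl0]
      · rw [max_eq_right hj0, max_eq_right hk0, max_eq_right hl0]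
        linarith

/-- **The row lemma for main cells.** -/
theorem row_main {i j k l : Fin 4} {v : Fin 4 → ℝ} {φ r θ : ℝ} (ν : ℝ) (hv : IsCell i v)
    (h : [i, j, k, l].Nodup) (hm : ∀ m, m ≠ i → -v m ≤ 1) (hφ : φ ≤ fcl i v) (hr0 : 0 ≤ r)
    (hr : 11 / 12 - r / 2 - 3 / 4 * r ^ 2 + r ^ 3 / 3 ≤ φ) (hθ : θ ≤ 1 / 3 + φ - r ^ 3 / 3)
    (hθ' : 1 / 2 ≤ 1 / 3 + φ - r ^ 3 / 3) :
    fcl i v ≤ 7 / 6 - ν + gg ν (-v j) + gg ν (-v k) + gg ν (-v l) - (ν + θ) * (v i - 1) := by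
  have b := nodup_ne h
  have hj := main_r hv h hm hφ hr0 hr
  have h2 : [i, k, j, l].Nodup := by
    clear * - h
    revert h
    revert i j k l
    decide
  have h3 : [i, l, k, j].Nodup := by
    clear * - h
    revert h
    revert i j k l
    decide
  have hk := main_r hv h2 hm hφ hr0 hr
  have hl := main_r hv h3 hm hφ hr0 hr
  have := row_le ν hv h hφ (cub_main hv h hm hr0 hj hk hl) hθ hθ'
  rwa [gx_of_le (hm j b.1), gx_of_le (hm k b.2.1), gx_of_le (hm l b.2.2)] at this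

/-- the exact row formula for main cells -/
theorem row_main_eq {i j k l : Fin 4} {v : Fin 4 → ℝ} (ν : ℝ) (hv : IsCell i v)
    (h : [i, j, k, l].Nodup) (hm : ∀ m, m ≠ i → -v m ≤ 1) :
    fcl i v = 7 / 6 - ν + gg ν (-v j) + gg ν (-v k) + gg ν (-v l)
      - (ν + (3 / 2 - (v i - 1) / 2 + (v i - 1) ^ 2 / 6
        - ((v j) ^ 2 + (v k) ^ 2 + (v l) ^ 2) / 2)) * (v i - 1) := by
  have b := nodup_ne h
  have := row_eq ν hv h
  rw [gx_of_le (hm j b.1), gx_of_le (hm k b.2.1), gx_of_le (hm l b.2.2)] at this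
  rw [this, slope, max_eq_right (by linarith [hm j b.1] : -v j - 1 ≤ 0),
    max_eq_right (by linarith [hm k b.2.1] : -v k - 1 ≤ 0),
    max_eq_right (by linarith [hm l b.2.2] : -v l - 1 ≤ 0)]
  ring

end Pool.Agent.Helper23.TS
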