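import Pool.Agent.Helper23.TS.T2143D
import Pool.Agent.Helper36.TS.Frame

/-!
# Type (2,1,4,3): the total
-/

set_option autoImplicit false
set_option maxRecDepth 100000

namespace Pool.Agent.Helper23.TS.T2143

open Pool.Agent.Helper83.Cert Pool.Agent.Helper36.TS Pool.Agent.Helper83.TS

/-- **The total** of the type (2,1,4,3) -/
theorem tot {a b c d : ℝ} (ha : 0 ≤ a) (hb : 0 ≤ b) (hc : 0 ≤ c) (hd : 0 ≤ d)
    (ha1 : a ≤ 3 / 5) (hb1 : b ≤ 3 / 5) (hc1 : c ≤ 3 / 5) (hd1 : d ≤ 3 / 5) :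
    rowc (n a) a + rowc (n b) b + rowc (n c) c + rowc (n d) d + kp a b * (a + b) + kc a c * (a + c)
      + kc a d * (a + d) + kc b c * (b + c) + kc b d * (b + d) + kp c d * (c + d)
      + (wc b c d + wc a c d + wc d a b + wc c a b) ≤ 613 / 200 := by
  have h := cert (y := yv a b c d 0 0 0 0 0) (gs := [.v 2, .v 3, .v 5, .v 7, .sub (.c 3) (.mul (.c 5) (.v 2)), .sub (.c 3) (.mul (.c 5) (.v 3)), .sub
    (.c 3) (.mul (.c 5) (.v 5)), .sub (.c 3) (.mul (.c 5) (.v 7))])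
    (p := .mul (.c 62500) (.add (.add (.add (.add (.c (96800)) (.add (.mul (.c (-275712)) (.v 7)) (.mul (.mul (.c (316608))
    (.v 7)) (.v 7)))) (.add (.add (.mul (.mul (.mul (.c (-144236)) (.v 7)) (.v 7)) (.v 7)) (.mul (.c
    (-275712)) (.v 5))) (.add (.mul (.mul (.c (649272)) (.v 5)) (.v 7)) (.mul (.mul (.mul (.c
    (-327288)) (.v 5)) (.v 7)) (.v 7))))) (.add (.add (.add (.mul (.mul (.c (316608)) (.v 5)) (.v 5))
    (.mul (.mul (.mul (.c (-327288)) (.v 5)) (.v 5)) (.v 7))) (.add (.mul (.mul (.mul (.c (-144236))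
    (.v 5)) (.v 5)) (.v 5)) (.mul (.c (-275712)) (.v 3)))) (.add (.add (.mul (.mul (.c (678768)) (.v
    3)) (.v 7)) (.mul (.mul (.mul (.c (-374472)) (.v 3)) (.v 7)) (.v 7))) (.add (.mul (.mul (.c
    (678768)) (.v 3)) (.v 5)) (.mul (.mul (.mul (.c (-374472)) (.v 3)) (.v 5)) (.v 5)))))) (.add (.add
    (.add (.add (.mul (.mul (.c (316608)) (.v 3)) (.v 3)) (.mul (.mul (.mul (.c (-374472)) (.v 3)) (.v
    3)) (.v 7))) (.add (.mul (.mul (.mul (.c (-374472)) (.v 3)) (.v 3)) (.v 5)) (.mul (.mul (.mul (.c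
    (-144236)) (.v 3)) (.v 3)) (.v 3)))) (.add (.add (.mul (.c (-275712)) (.v 2)) (.mul (.mul (.c
    (678768)) (.v 2)) (.v 7))) (.add (.mul (.mul (.mul (.c (-374472)) (.v 2)) (.v 7)) (.v 7)) (.mul
    (.mul (.c (678768)) (.v 2)) (.v 5))))) (.add (.add (.add (.mul (.mul (.mul (.c (-374472)) (.v 2))
    (.v 5)) (.v 5)) (.mul (.mul (.c (649272)) (.v 2)) (.v 3))) (.add (.mul (.mul (.mul (.c (-327288))
    (.v 2)) (.v 3)) (.v 3)) (.mul (.mul (.c (316608)) (.v 2)) (.v 2)))) (.add (.add (.mul (.mul (.mul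
    (.c (-374472)) (.v 2)) (.v 2)) (.v 7)) (.mul (.mul (.mul (.c (-374472)) (.v 2)) (.v 2)) (.v 5)))
    (.add (.mul (.mul (.mul (.c (-327288)) (.v 2)) (.v 2)) (.v 3)) (.mul (.mul (.mul (.c (-144236))
    (.v 2)) (.v 2)) (.v 2))))))))
    (e := (.add (.add (.add (.mul (.g 1) (.add (.add (.mul (.pp [(1, 687375)]) (.sq [(1, -2), (2, 13), (3,
    -20), (5, 13), (7, 13)])) (.mul (.g 0) (.add (.add (.pp [(1, 87187500)]) (.mul (.g 2) (.pp [(1,
    21483000000)]))) (.add (.mul (.g 3) (.pp [(1, 20971050000)])) (.add (.mul (.g 4) (.pp [(1,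
    1805812500)])) (.mul (.g 5) (.pp [(1, 1133445000)]))))))) (.add (.mul (.g 2) (.add (.mul (.g 3)
    (.pp [(1, 19282125000)])) (.add (.mul (.g 5) (.pp [(1, 1675620000)])) (.mul (.g 6) (.pp [(1,
    2306460000)]))))) (.add (.mul (.g 1) (.add (.mul (.g 5) (.pp [(1, 151365000)])) (.mul (.g 6) (.pp
    [(1, 94395000)])))) (.mul (.g 3) (.add (.mul (.g 5) (.pp [(1, 1766205000)])) (.mul (.g 7) (.pp
    [(1, 2312992500)])))))))) (.add (.mul (.g 2) (.add (.mul (.g 3) (.add (.add (.pp [(1,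
    1711125000)]) (.mul (.g 0) (.pp [(1, 16253700000)]))) (.add (.mul (.g 6) (.pp [(1, 1311735000)]))
    (.mul (.g 7) (.pp [(1, 1379647500)]))))) (.add (.mul (.g 0) (.add (.mul (.g 4) (.pp [(1,
    2179897500)])) (.mul (.g 6) (.pp [(1, 2261512500)])))) (.mul (.g 2) (.mul (.g 6) (.pp [(1,
    694290000)])))))) (.mul (.g 4) (.add (.add (.mul (.pp [(1, 154035)]) (.sq [(1, -17), (2, 50), (3,
    28), (5, 28), (7, 28)])) (.mul (.pp [(1, 25062)]) (.sq [(3, 49), (5, 1), (7, -50)]))) (.add (.mul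
    (.pp [(1, 237186)]) (.sq [(1, -47), (2, 50), (3, 50), (5, 50), (7, 50)])) (.mul (.g 0) (.add (.mul
    (.g 0) (.pp [(1, 825645000)])) (.mul (.g 3) (.pp [(1, 2144317500)]))))))))) (.add (.mul (.g 7)
    (.add (.add (.mul (.pp [(1, 212769)]) (.sq [(1, -47), (2, 50), (3, 50), (5, 50), (7, 50)])) (.mul
    (.pp [(1, 227145)]) (.sq [(1, -17), (2, 28), (3, 28), (5, 28), (7, 50)]))) (.add (.mul (.pp [(1,
    581964)]) (.sq [(2, 19), (3, 6), (5, -25)])) (.mul (.g 3) (.add (.mul (.g 0) (.pp [(1,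
    2205412500)])) (.mul (.g 3) (.pp [(1, 703912500)]))))))) (.add (.mul (.g 6) (.add (.mul (.pp [(1,
    232926)]) (.sq [(1, -17), (2, 28), (3, 28), (5, 50), (7, 28)])) (.add (.mul (.pp [(1, 210837)])
    (.sq [(1, -47), (2, 50), (3, 50), (5, 50), (7, 50)])) (.mul (.pp [(1, 484236)]) (.sq [(2, 19), (3,
    6), (7, -25)]))))) (.mul (.g 5) (.add (.mul (.pp [(1, 591660)]) (.sq [(1, -17), (2, 28), (3, 50),
    (5, 28), (7, 28)])) (.mul (.pp [(1, 91272)]) (.sq [(1, -47), (2, 50), (3, 50), (5, 50), (7,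
    50)]))))))) (.pp [(1, 20672750), (2, 3724581), (3, 3753576), (4, 3788088), (5, 3728775), (6,
    3759516), (7, 3741606), (8, 3737500), (9, 3749502), (10, 3801420), (12, 3743325), (14, 3798756),
    (15, 3758892), (18, 3711510), (20, 3705900), (21, 3712956), (25, 3787134), (27, 3775000), (28,
    3693420), (30, 3740310), (35, 3761460), (42, 3777810), (45, 3744900), (49, 3766908), (50,
    3719010), (63, 3774420), (70, 3710040), (75, 3729825), (98, 3734700), (105, 3763290), (125,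
    3737500), (147, 3758325), (175, 3722400), (245, 3762420), (343, 3737500)])))
    (by decide +kernel) (yv_nonneg ha hb hc hd (le_refl 0) (le_refl 0) (le_refl 0) (le_refl 0) (le_refl 0))
    (by
      simp only [List.forall_mem_cons, exsub, exmul, exc, exv2, exv3, exv5, exv7]
      push_cast
      exact ⟨ha, hb, hc, hd, by linarith, by linarith, by linarith, by linarith,
        fun _ hh => absurd hh List.not_mem_nil⟩)
  simp only [exadd, exmul, exc, exv2, exv3, exv5, exv7] at h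
  push_cast at h
  simp only [rowc, n, kp, kc, wc]
  linarith [h]

end Pool.Agent.Helper23.TS.T2143
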