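import Pool.Agent.Helper23.TS.T2143C
import Pool.Agent.Helper23.TS.T2143T
import Pool.Agent.Helper83.TS.Glue
import Pool.Agent.Helper90.TS.ColAll

/-!
# The type `(2, 1, 4, 3)`
-/

set_option autoImplicit false

namespace Pool.Agent.Helper23.TS

open Pool.Agent.Helper36.TS Pool.Agent.Helper84.TS Pool.Agent.Helper78.TS Pool.Agent.Helper83.TS

namespace T2143

theorem kp_comm (x y : ℝ) : kp x y = kp y x := by
  unfold kp
  ring

theorem kc_comm (x y : ℝ) : kc x y = kc y x := by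
  unfold kc
  ring

theorem wc_comm (x y z : ℝ) : wc x y z = wc x z y := by
  unfold wc
  ring

theorem X_comm (x y z : ℝ) : X x y z = X x z y := by
  unfold X
  ring

/-- the shares of a pair -/
theorem lc_add (x y : ℝ) : lc x y + lc y x = kc x y := by
  unfold lc
  rw [kc_comm y x]
  ring

/-- **The column** -/
theorem col {x y z : ℝ} (x0 : 0 ≤ x) (x1 : x < 3 / 5) (y0 : 0 ≤ y) (y1 : y < 3 / 5) (z0 : 0 ≤ z)
    (z1 : z < 3 / 5) :
    Col (n x - kc x y - kc x z) x (n y) y (n z) z (kp y z) (lc x y) (lc x z) (kp y z / 2)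
      (wc x y z) := by
  have h : Bd x y z := ⟨x0, y0, z0, x1.le, y1.le, z1.le⟩
  have h' : Bd x z y := ⟨x0, z0, y0, x1.le, z1.le, y1.le⟩
  have b := (br h').swap
  have l := lo h'
  rw [X_comm x z y, kp_comm z y, wc_comm x z y] at b l
  exact ⟨br h, b, lo h, l, k0 h, k1 h, k1 h', div_nonneg (k0 h) (by norm_num)⟩

/-- the shares and the total -/
theorem tot_2143 {d1 d2 d3 d4 : ℝ} (h : Hts d1 d2 d3 d4) :
    Tot d1 d2 d3 d4 (n d1) (n d2) (n d3) (n d4) (kp d1 d2) (kc d1 d3) (kc d1 d4) (kc d2 d3)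
      (kc d2 d4) (kp d3 d4) (wc d2 d3 d4) (wc d1 d3 d4) (wc d4 d1 d2) (wc d3 d1 d2) (lc d2 d3)
      (lc d2 d4) (kp d3 d4 / 2) (lc d1 d3) (lc d1 d4) (kp d3 d4 / 2) (kp d1 d2 / 2) (lc d4 d1)
      (lc d4 d2) (kp d1 d2 / 2) (lc d3 d1) (lc d3 d2) where
  s12 := by linarith
  s13 := by linarith [lc_add d1 d3]
  s14 := by linarith [lc_add d1 d4]
  s23 := by linarith [lc_add d2 d3]
  s24 := by linarith [lc_add d2 d4]
  s34 := by linarith
  tot := by
    have := tot h.a0 h.b0 h.c0 h.e0 h.a1.le h.b1.le h.c1.le h.e1.le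
    linarith

end T2143

open T2143

/-- **The type `(2, 1, 4, 3)`.** -/
theorem caseT2143 : CaseT2143 := by
  refine caseT2143_of Pool.Agent.Helper90.TS.gives_col fun d1 d2 d3 d4 h => ?_
  have c3 := col h.e0 h.e1 h.a0 h.a1 h.b0 h.b1
  have c4 := col h.c0 h.c1 h.a0 h.a1 h.b0 h.b1
  rw [kc_comm d4 d1, kc_comm d4 d2] at c3
  rw [kc_comm d3 d1, kc_comm d3 d2] at c4
  exact ⟨_, _, _, _, _, _, _, _, _, _, _, _, _, _, _, _, _, _, _, _, _, _, _, _, _, _, tot_2143 h,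
    col h.b0 h.b1 h.c0 h.c1 h.e0 h.e1, col h.a0 h.a1 h.c0 h.c1 h.e0 h.e1, c3, c4⟩

end Pool.Agent.Helper23.TS
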