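import Pool.Agent.Helper83.TS.Kinds

/-!
# Type (2,1,4,3): the multipliers

Everything is invariant under the symmetry of the type: `n` for the rows, `kp` for the pairs `{1, 2}`
and `{3, 4}`, `kc` for the other four pairs. In a column `x` is the height of the lowest class, `y, z`
the heights of the two other classes; `kp y z` belongs to these two.
-/

set_option autoImplicit false

namespace Pool.Agent.Helper23.TS.T2143

/-- the multiplier of a row -/
noncomputable def n (x : ℝ) : ℝ := 87199 / 100000 - 663 / 10000 * x - 27217 / 50000 * x ^ 2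

/-- the pairs `{1, 2}`, `{3, 4}` -/
noncomputable def kp (x y : ℝ) : ℝ :=
  35747 / 50000 - 27071 / 50000 * (x + y) + 13637 / 25000 * (x * y)

/-- the other pairs -/
noncomputable def kc (x y : ℝ) : ℝ :=
  931 / 2500 - 17437 / 50000 * (x + y) - 429 / 6250 * (x ^ 2 + y ^ 2) + 17319 / 25000 * (x * y)

/-- the share of the slack of a pair `{lowest class, other class}` -/
noncomputable def lc (x y : ℝ) : ℝ :=
  kc x y / 2 + 21273 / 100000 * (x - y) - 2233 / 12500 * (x ^ 2 - y ^ 2)

/-- the multiplier of the entry of the lowest class -/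
noncomputable def X (x y z : ℝ) : ℝ := n x - kc x y - kc x z

/-- the bound of the column -/
noncomputable def wc (x y z : ℝ) : ℝ :=
  10781 / 25000 + 27127 / 100000 * x + 5171 / 10000 * (y + z) + 7897 / 50000 * x ^ 2 - 6967 / 25000 * (y ^ 2 + z ^ 2) - 2169 / 10000 * x * (y + z) + 9 / 25000 * (y * z)

end Pool.Agent.Helper23.TS.T2143
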